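import Mathlib
import Pool.Agent.Y241.NC.One

set_option autoImplicit false

namespace Pool.Agent.Results.MP_be29a0_al.AllFields

open Pool.Agent.Helper84 Pool.Agent.Helper84.NCExpr Pool.Agent.Y241.NC

/-- Over every field `k` with `2, 3 ≠ 0` over which some curve `y² = x³ + b`, `b ≠ 0`, has only
finitely many points, and for every set `g` of at least two variables, there is a noncommutative
rational function whose values over `k(t)` never have a simple eigenvalue in `k(t)`
(for at most one variable this never happens, over any field). These fields include all finite
fields of characteristic at least five, the rational numbers, and with `k` also `k(s)`. -/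
theorem result :
    (∀ (k : Type) [Field k], FinCurve k → ∀ g : Type, Nontrivial g → NoSimple k g) ∧
    (∀ (k : Type) [Field k] (g : Type), ¬ Nontrivial g → ¬ NoSimple k g) ∧
    (∀ (k : Type) [Field k] [Finite k], (2 : k) ≠ 0 → (3 : k) ≠ 0 → FinCurve k) ∧
    FinCurve ℚ ∧
    (∀ (k : Type) [Field k], FinCurve k → FinCurve (RatFunc k)) := by
  refine ⟨?_, ?_, ?_, finCurve_rat, ?_⟩
  · intro k _ hk g hg
    exact noSimple_of_finCurve hk
  · intro k _ g hg
    exact not_noSimple hg
  · intro k _ _ h2 h3
    exact finCurve_finite h2 h3
  · intro k _ hk
    exact finCurve_ratFunc hk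

end Pool.Agent.Results.MP_be29a0_al.AllFields
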